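import Pool.Agent.W662.SK.DefsA

set_option autoImplicit false
set_option linter.unusedSectionVars false

open scoped InnerProductSpace ENNReal

namespace Pool.Agent.W662.SK

noncomputable section

section basic
variable {I E F G : Type} [NormedAddCommGroup E] [InnerProductSpace ℂ E]
  [NormedAddCommGroup F] [InnerProductSpace ℂ F] [NormedAddCommGroup G] [InnerProductSpace ℂ G]

lemma l2_ext {f g : L2 I E} (h : ∀ i, f i = g i) : f = g := by
  ext i; exact h i

lemma l2_add_apply (f g : L2 I E) (i : I) : (f + g) i = f i + g i := rfl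
lemma l2_sub_apply (f g : L2 I E) (i : I) : (f - g) i = f i - g i := rfl
lemma l2_smul_apply (c : ℂ) (f : L2 I E) (i : I) : (c • f) i = c • f i := rfl
lemma l2_sum_apply {ι : Type} (s : Finset ι) (f : ι → L2 I E) (i : I) :
    (∑ k ∈ s, f k) i = ∑ k ∈ s, f k i := by
  rw [lp.coeFn_sum, Finset.sum_apply]

lemma norm_sq_hasSum (f : L2 I E) : HasSum (fun i => ‖f i‖ ^ 2) (‖f‖ ^ 2) := by
  have h := lp.hasSum_norm (p := 2) (by norm_num) f
  simpa using h

lemma inner_hasSum (f g : L2 I E) : HasSum (fun i => ⟪f i, g i⟫_ℂ) ⟪f, g⟫_ℂ :=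
  lp.hasSum_inner f g

lemma norm_apply_le (f : L2 I E) (i : I) : ‖f i‖ ≤ ‖f‖ := lp.norm_apply_le_norm two_ne_zero f i

lemma cl_comp (u v : E ≃ₗᵢ[ℂ] E) : cl (u * v) = (cl u).comp (cl v) := by ext x; rfl
lemma cl_mul (u v : E ≃ₗᵢ[ℂ] E) : cl (u * v) = cl u * cl v := by ext x; rfl
@[simp] lemma cl_one : cl (1 : E ≃ₗᵢ[ℂ] E) = 1 := by ext x; rfl
lemma norm_cl_le (u : E ≃ₗᵢ[ℂ] E) : ‖cl u‖ ≤ 1 :=
  ContinuousLinearMap.opNorm_le_bound _ zero_le_one fun x => by simp

lemma adjoint_cl [CompleteSpace E] (u : E ≃ₗᵢ[ℂ] E) :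
    ContinuousLinearMap.adjoint (cl u) = cl u.symm := by
  symm
  rw [ContinuousLinearMap.eq_adjoint_iff]
  intro x y
  simp only [cl_apply]
  rw [← u.inner_map_map, u.apply_symm_apply]

lemma adjoint_cl_inv [CompleteSpace E] (u : E ≃ₗᵢ[ℂ] E) :
    ContinuousLinearMap.adjoint (cl u) = cl u⁻¹ := adjoint_cl u

lemma star_cl [CompleteSpace E] (u : E ≃ₗᵢ[ℂ] E) : star (cl u) = cl u⁻¹ := adjoint_cl u

lemma lft_comp (S : F →L[ℂ] G) (T : E →L[ℂ] F) : lft I (S.comp T) = (lft I S).comp (lft I T) := by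
  ext f i; rfl
lemma lft_mul (S T : E →L[ℂ] E) : lft I (S * T) = lft I S * lft I T := by
  ext f i; rfl
@[simp] lemma lft_one : lft I (1 : E →L[ℂ] E) = 1 := by ext f i; rfl
lemma lft_add (S T : E →L[ℂ] F) : lft I (S + T) = lft I S + lft I T := by ext f i; rfl
lemma lft_sub (S T : E →L[ℂ] F) : lft I (S - T) = lft I S - lft I T := by ext f i; rfl
lemma lft_smul (c : ℂ) (T : E →L[ℂ] F) : lft I (c • T) = c • lft I T := by ext f i; rfl

lemma norm_lft_le (T : E →L[ℂ] F) : ‖lft I T‖ ≤ ‖T‖ :=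
  LinearMap.mkContinuous_norm_le _ (norm_nonneg _) _

lemma adjoint_lft [CompleteSpace E] [CompleteSpace F] (T : E →L[ℂ] F) :
    ContinuousLinearMap.adjoint (lft I T) = lft I (ContinuousLinearMap.adjoint T) := by
  symm
  rw [ContinuousLinearMap.eq_adjoint_iff]
  intro f g
  refine (inner_hasSum _ _).unique ?_
  have h := inner_hasSum f (lft I T g)
  simp only [lft_apply] at h ⊢
  simpa only [ContinuousLinearMap.adjoint_inner_left] using h

/-- composition of monomial unitaries -/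
lemma isoL_mul (e e' : I ≃ I) (U U' : I → (E ≃ₗᵢ[ℂ] E)) :
    isoL e U * isoL e' U' = isoL (e * e') (fun i => U i * U' (e.symm i)) := by
  ext f i; rfl

lemma isoL_single [DecidableEq I] (e : I ≃ I) (U : I → (E ≃ₗᵢ[ℂ] F)) (i : I) (x : E) :
    isoL e U (lp.single 2 i x) = lp.single 2 (e i) (U (e i) x) := by
  refine l2_ext fun k => ?_
  rw [isoL_apply]
  by_cases h : k = e i
  · subst h; simp
  · have h' : e.symm k ≠ i := fun h'' => h (by rw [← h'', Equiv.apply_symm_apply])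
    rw [lp.single_apply_ne _ _ _ h, lp.single_apply_ne _ _ _ h', map_zero]

lemma lft_single [DecidableEq I] (T : E →L[ℂ] F) (i : I) (x : E) :
    lft I T (lp.single 2 i x) = lp.single 2 i (T x) := by
  refine l2_ext fun k => ?_
  rw [lft_apply]
  by_cases h : k = i
  · subst h; simp
  · rw [lp.single_apply_ne _ _ _ h, lp.single_apply_ne _ _ _ h, map_zero]

lemma inner_single_left' [DecidableEq I] (i : I) (x : E) (f : L2 I E) :
    ⟪(lp.single 2 i x : L2 I E), f⟫_ℂ = ⟪x, f i⟫_ℂ := lp.inner_single_left i x f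

lemma inner_single_right' [DecidableEq I] (i : I) (x : E) (f : L2 I E) :
    ⟪f, (lp.single 2 i x : L2 I E)⟫_ℂ = ⟪f i, x⟫_ℂ := lp.inner_single_right i x f

/-- finitely supported vectors are dense: truncations converge -/
lemma hasSum_single' [DecidableEq I] (f : L2 I E) : HasSum (fun i => (lp.single 2 i (f i) : L2 I E)) f :=
  lp.hasSum_single (by norm_num) f

end basic

section alg
variable {Γ : Type} [Group Γ] {K : Type} [NormedAddCommGroup K] [InnerProductSpace ℂ K]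

lemma Lam_mul (g h : Γ) : Lam K (g * h) = Lam K g * Lam K h := by
  refine LinearIsometryEquiv.ext fun f => l2_ext fun k => ?_
  change f ((g * h)⁻¹ * k) = f (h⁻¹ * (g⁻¹ * k))
  congr 1; group

@[simp] lemma Lam_one : Lam K (1 : Γ) = 1 := by
  refine LinearIsometryEquiv.ext fun f => l2_ext fun k => ?_
  change f ((1 : Γ)⁻¹ * k) = f k
  simp

lemma Lam_inv (g : Γ) : Lam K g⁻¹ = (Lam K g)⁻¹ := by
  rw [eq_inv_iff_mul_eq_one, ← Lam_mul, inv_mul_cancel, Lam_one]

lemma Rho_mul (g h : Γ) : Rho K (g * h) = Rho K g * Rho K h := by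
  refine LinearIsometryEquiv.ext fun f => l2_ext fun k => ?_
  rw [Rho_apply]
  change _ = Rho K g (Rho K h f) k
  rw [Rho_apply, Rho_apply, mul_assoc]

@[simp] lemma Rho_one : Rho K (1 : Γ) = 1 := by
  refine LinearIsometryEquiv.ext fun f => l2_ext fun k => ?_
  rw [Rho_apply, mul_one]; rfl

lemma Rho_inv (g : Γ) : Rho K g⁻¹ = (Rho K g)⁻¹ := by
  rw [eq_inv_iff_mul_eq_one, ← Rho_mul, inv_mul_cancel, Rho_one]

lemma Lam_Rho (g h : Γ) : Lam K g * Rho K h = Rho K h * Lam K g := by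
  refine LinearIsometryEquiv.ext fun f => l2_ext fun k => ?_
  change Lam K g (Rho K h f) k = Rho K h (Lam K g f) k
  rw [Lam_apply, Rho_apply, Rho_apply, Lam_apply, mul_assoc]

lemma Lam_single [DecidableEq Γ] (g k : Γ) (x : K) :
    Lam K g (lp.single 2 k x) = lp.single 2 (g * k) x := by
  unfold Lam; rw [isoL_single]; rfl

lemma Rho_single [DecidableEq Γ] (g k : Γ) (x : K) :
    Rho K g (lp.single 2 k x) = lp.single 2 (k * g⁻¹) x := by
  unfold Rho; rw [isoL_single]; rfl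

lemma Wop_single [DecidableEq Γ] (π : Γ →* (K ≃ₗᵢ[ℂ] K)) (k : Γ) (x : K) :
    Wop π (lp.single 2 k x) = lp.single 2 k (π k x) := by
  unfold Wop; rw [isoL_single]; rfl

lemma Wop_symm_single [DecidableEq Γ] (π : Γ →* (K ≃ₗᵢ[ℂ] K)) (k : Γ) (x : K) :
    (Wop π).symm (lp.single 2 k x) = lp.single 2 k ((π k).symm x) := by
  rw [LinearIsometryEquiv.symm_apply_eq, Wop_single, LinearIsometryEquiv.apply_symm_apply]

/-- lifted operators commute with translations -/
lemma lft_Lam {L : Type} [NormedAddCommGroup L] [InnerProductSpace ℂ L] (T : K →L[ℂ] L) (g : Γ) :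
    (lft Γ T).comp (cl (Lam K g)) = (cl (Lam L g)).comp (lft Γ T) := by
  ext f k; rfl

lemma lft_Rho {L : Type} [NormedAddCommGroup L] [InnerProductSpace ℂ L] (T : K →L[ℂ] L) (g : Γ) :
    (lft Γ T).comp (cl (Rho K g)) = (cl (Rho L g)).comp (lft Γ T) := by
  refine ContinuousLinearMap.ext fun f => l2_ext fun k => ?_
  change T (Rho K g f k) = Rho L g (lft Γ T f) k
  rw [Rho_apply, Rho_apply, lft_apply]

/-- `W (1 ⊗ λ(g)) W* = π(g) ⊗ λ(g)` -/
lemma sg_Lam (π : Γ →* (K ≃ₗᵢ[ℂ] K)) (g : Γ) :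
    sg π (cl (Lam K g)) = (lft Γ (cl (π g))).comp (cl (Lam K g)) := by
  refine ContinuousLinearMap.ext fun f => l2_ext fun k => ?_
  change π k ((π (g⁻¹ * k)).symm (f (g⁻¹ * k))) = π g (f (g⁻¹ * k))
  have h : (π (g⁻¹ * k)).symm = (π (g⁻¹ * k))⁻¹ := rfl
  rw [h, ← map_inv, mul_inv_rev, inv_inv, map_mul]
  change π k (π k⁻¹ (π g _)) = _
  rw [map_inv]
  exact (π k).apply_symm_apply _

end alg

section words

lemma Lam_dl (g x : G3) : Lam ℂ g (dl x) = dl (g * x) := by
  unfold dl; rw [Lam_single]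

lemma inner_dl (x : G3) (f : K0) : ⟪dl x, f⟫_ℂ = f x := by
  unfold dl; rw [inner_single_left']; simp

lemma dl_apply_self (x : G3) : dl x x = 1 := by unfold dl; simp

lemma dl_apply_ne {x y : G3} (h : y ≠ x) : dl x y = 0 := by
  unfold dl; exact lp.single_apply_ne _ _ _ h

lemma norm_dl (x : G3) : ‖dl x‖ = 1 := by
  unfold dl; rw [lp.norm_single (by norm_num)]; simp

end words

end
end Pool.Agent.W662.SK
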