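import Pool.Agent.W662.SK.DefsA

set_option autoImplicit false

open scoped InnerProductSpace ENNReal

namespace Pool.Agent.W662.SK

noncomputable section

/-- a letter as an element of the free group -/
def lt (p : Fin 3 × Bool) : G3 := FreeGroup.mk [p]

def S_A1 : Prop := ∀ (t : ℝ) (s : G3), 0 ≤ t → t ≤ 1 → s ≠ 1 → ∃ R : K0 ≃ₗᵢ[ℂ] K0, IsRot t s R

def S_A2 : Prop := ∀ t : ℝ, 0 ≤ t → t ≤ 1 → ∀ p : Fin 3 × Bool,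
  rp t (lt p) = Rot t (lt p) * Lam ℂ (lt p)

def S_A3 : Prop := ∀ t : ℝ, 0 ≤ t → t ≤ 1 → ∀ p : Fin 3 × Bool,
  rp t (lt p) (dl 1) = ((cs t : ℝ) : ℂ) • dl (lt p) + ((t : ℝ) : ℂ) • dl 1 ∧
  rp t (lt p) (dl (lt p)⁻¹) = ((cs t : ℝ) : ℂ) • dl 1 - ((t : ℝ) : ℂ) • dl (lt p) ∧
  ∀ x : G3, x ≠ 1 → x ≠ (lt p)⁻¹ → rp t (lt p) (dl x) = dl (lt p * x)

def S_A4 : Prop := ∀ t : ℝ, 0 ≤ t → t ≤ 1 → ∀ (L : List (Fin 3 × Bool)) (p : Fin 3 × Bool),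
  FreeGroup.IsReduced (L ++ [p]) → rp t (FreeGroup.mk L) (dl (lt p)) = dl (FreeGroup.mk (L ++ [p]))

def S_A5 : Prop := ∀ t : ℝ, 0 ≤ t → t ≤ 1 → ∀ (L : List (Fin 3 × Bool)) (p : Fin 3 × Bool),
  FreeGroup.IsReduced (L ++ [p]) →
  vv t (L ++ [p]) = ((cs t : ℝ) : ℂ) • dl (FreeGroup.mk (L ++ [p])) + ((t : ℝ) : ℂ) • vv t L

def S_A6a : Prop := ∀ (L : List (Fin 3 × Bool)), FreeGroup.IsReduced L → ∀ η : K0,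
  ∑ k ∈ Finset.range (L.length + 1), ‖⟪η, dl (FreeGroup.mk (L.take k))⟫_ℂ‖ ^ 2 ≤ ‖η‖ ^ 2

def S_A6b : Prop := ∀ t : ℝ, 0 ≤ t → t < 1 →
  ∀ (L : List (Fin 3 × Bool)), FreeGroup.IsReduced L → ∀ η : K0,
  ∑ k ∈ Finset.range (L.length + 1), ‖⟪η, vv t (L.take k)⟫_ℂ‖ ^ 2 ≤ (2 / (1 - t)) ^ 2 * ‖η‖ ^ 2

def S_A7a : Prop := ∀ t r : ℝ, 0 ≤ t → t ≤ 1 → 0 ≤ r → r ≤ 1 → ∀ (p : Fin 3 × Bool) (ζ : K0),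
  rp t (lt p) ζ - rp r (lt p) ζ =
    ((cs t - cs r : ℝ) : ℂ) • (⟪dl 1, ζ⟫_ℂ • dl (lt p) + ⟪dl (lt p)⁻¹, ζ⟫_ℂ • dl 1) +
    ((t - r : ℝ) : ℂ) • (⟪dl 1, ζ⟫_ℂ • dl 1 - ⟪dl (lt p)⁻¹, ζ⟫_ℂ • dl (lt p))

def S_A7 : Prop := ∀ t r : ℝ, 0 ≤ t → t < 1 → 0 ≤ r → r < 1 → ∀ g : G3,
  ‖cl (rp t g) - cl (rp r g)‖ ≤ |cs t - cs r| * (2 / (1 - t) + 2 / (1 - r)) +
    |t - r| * (4 / ((1 - t) * (1 - r)) + 1)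

def S_A8 : Prop := WC (rp 0)

def S_A9a : Prop := ∀ (E : Type) [NormedAddCommGroup E] [InnerProductSpace ℂ E] [CompleteSpace E]
  (η : L2 G3 E), (∑ p : Fin 3 × Bool, ⟪η, Lam E (lt p) η⟫_ℂ).re ≤ 49 / 10 * ‖η‖ ^ 2

def S_A9 : Prop := ¬ WC (rp (9 / 10))

def S_PA : Prop := ∀ ε : ℝ, 0 < ε → ∃ π π' : G3 →* (K0 ≃ₗᵢ[ℂ] K0),
  (∀ g, ‖cl (π g) - cl (π' g)‖ ≤ ε) ∧ WC π ∧ ¬ WC π'

/-- infinite multiple of a representation -/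
def lf {Γ K : Type} [Group Γ] [NormedAddCommGroup K] [InnerProductSpace ℂ K]
    (π : Γ →* (K ≃ₗᵢ[ℂ] K)) : Γ →* (L2 ℤ K ≃ₗᵢ[ℂ] L2 ℤ K) where
  toFun g := isoL (Equiv.refl ℤ) (fun _ => π g)
  map_one' := by ext f i; simp
  map_mul' g h := by ext f i; simp

def S_L1 : Prop := ∀ (Γ K : Type) [Group Γ] [NormedAddCommGroup K] [InnerProductSpace ℂ K]
  [CompleteSpace K] (π π' : Γ →* (K ≃ₗᵢ[ℂ] K)), Nonempty (Shift (lf π) (lf π'))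

def S_L2 : Prop := ∀ (Γ K : Type) [Group Γ] [NormedAddCommGroup K] [InnerProductSpace ℂ K]
  [CompleteSpace K] (π : Γ →* (K ≃ₗᵢ[ℂ] K)), WC π → WC (lf π)

def S_L3 : Prop := ∀ (Γ K : Type) [Group Γ] [NormedAddCommGroup K] [InnerProductSpace ℂ K]
  [CompleteSpace K] (π : Γ →* (K ≃ₗᵢ[ℂ] K)), WC (lf π) → WC π

def S_L4 : Prop := ∀ (Γ K : Type) [Group Γ] [NormedAddCommGroup K] [InnerProductSpace ℂ K]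
  [CompleteSpace K] (π π' : Γ →* (K ≃ₗᵢ[ℂ] K)) (g : Γ),
  ‖cl (lf π g) - cl (lf π' g)‖ ≤ ‖cl (π g) - cl (π' g)‖

end
end Pool.Agent.W662.SK
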