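import Pool.Agent.W662.SK.Main
import Pool.Agent.W557.SK.A1
import Pool.Agent.W179.SK.A2
import Pool.Agent.W382.SK.A3
import Pool.Agent.W67.SK.A4
import Pool.Agent.W368.SK.A5
import Pool.Agent.W509.SK.A6
import Pool.Agent.W358.SK.A7a
import Pool.Agent.W933.SK.A7
import Pool.Agent.W359.SK.A8
import Pool.Agent.W639.SK.A9a
import Pool.Agent.W701.SK.A9
import Pool.Agent.W28.SK.PA
import Pool.Agent.W605.SK.L1
import Pool.Agent.W212.SK.L2
import Pool.Agent.W15.SK.L34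
import Pool.Agent.W762.SK.B0
import Pool.Agent.W293.SK.B1
import Pool.Agent.W293.SK.B2
import Pool.Agent.W538.SK.B3
import Pool.Agent.W692.SK.B4
import Pool.Agent.W400.SK.B5
import Pool.Agent.W298.SK.B6
import Pool.Agent.W298.SK.B7
import Pool.Agent.W298.SK.B8
import Pool.Agent.W135.SK.B10
import Pool.Agent.W318.SK.B11
import Pool.Agent.W839.SK.B12a
import Pool.Agent.W196.SK.B12
import Pool.Agent.W33.SK.B13
import Pool.Agent.W440.SK.B14
import Pool.Agent.W115.SK.B15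
import Pool.Agent.W405.SK.WF
import Pool.Agent.W303.SK.Qa
import Pool.Agent.W110.SK.Qb
import Pool.Agent.W918.SK.Qc
import Pool.Agent.W428.SK.Fell
import Pool.Agent.W371.SK.P
import Pool.Agent.W381.SK.Q
import Pool.Agent.W828.SK.Inv

set_option autoImplicit false

namespace Pool.Agent.W662.SK

theorem A1' : S_A1 := Pool.Agent.W557.SK.a1
theorem A2' : S_A2 := Pool.Agent.W179.SK.a2 A1'
theorem A3' : S_A3 := Pool.Agent.W382.SK.a3 A1' A2'
theorem A4' : S_A4 := Pool.Agent.W67.SK.a4 A3'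
theorem A5' : S_A5 := Pool.Agent.W368.SK.A5.a5 A3' A4'
theorem A6a' : S_A6a := Pool.Agent.W509.SK.a6a
theorem A6b' : S_A6b := Pool.Agent.W509.SK.a6b A5' A6a'
theorem A7a' : S_A7a := Pool.Agent.W358.SK.a7a A1' A2'
theorem A7' : S_A7 := Pool.Agent.W933.SK.a7 A4' A6a' A6b' A7a'
theorem A8' : S_A8 := Pool.Agent.W359.SK.A8.a8 A1'
theorem A9a' : S_A9a := Pool.Agent.W639.SK.a9a
theorem A9' : S_A9 := Pool.Agent.W701.SK.a9 A3' A9a'
theorem PA' : S_PA := Pool.Agent.W28.SK.pa A7' A8' A9'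
theorem L1' : S_L1 := Pool.Agent.W605.SK.l1
theorem L2' : S_L2 := Pool.Agent.W212.SK.l2
theorem L3' : S_L3 := Pool.Agent.W15.SK.l3
theorem L4' : S_L4 := Pool.Agent.W15.SK.l4
theorem B0' : S_B0 := Pool.Agent.W762.SK.b0
theorem B1' : S_B1 := Pool.Agent.W293.SK.b1
theorem B2' : S_B2 := Pool.Agent.W293.SK.b2 B0' B1'
theorem B3' : S_B3 := Pool.Agent.W538.SK.B3.b3
theorem B4' : S_B4 := Pool.Agent.W692.SK.B4.b4 B0' B3'
theorem B5' : S_B5 := Pool.Agent.W400.SK.b5 B0' B4'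
theorem B6' : S_B6 := Pool.Agent.W298.SK.B6.b6 B0' B1' B2'
theorem B7' : S_B7 := Pool.Agent.W298.SK.B7.b7
theorem B8' : S_B8 := Pool.Agent.W298.SK.B8.b8
theorem B9' : S_B9 := Pool.Agent.W298.SK.B8.b9 B0' B4'
theorem B10' : S_B10 := Pool.Agent.W135.SK.B10.b10 B0' B1' B2' B4'
theorem B11' : S_B11 := Pool.Agent.W318.SK.b11 B1'
theorem B12a' : S_B12a := Pool.Agent.W839.SK.b12a
theorem B12' : S_B12 := Pool.Agent.W196.SK.b12 B1' B5' B10' B11' B12a'
theorem B13' : S_B13 := Pool.Agent.W33.SK.b13 B0' B1' B2' B4'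
theorem B14' : S_B14 := W440.SK.b14
theorem B15' : S_B15 := Pool.Agent.W115.SK.b15 B0' B1' B2' B5' B12' B12a' B14'
theorem WF' : S_WF := Pool.Agent.W405.SK.WF.wf
theorem Qa' : S_Qa := Pool.Agent.W303.SK.Qa.qa
theorem Qb' : S_Qb := Pool.Agent.W110.SK.qb
theorem Qc' : S_Qc := Pool.Agent.W918.SK.qc
theorem FELL' : S_FELL := Pool.Agent.W428.SK.fell

theorem Q' : S_Q := Pool.Agent.W381.SK.q Qb' Qa' Qc'
theorem P' : S_P := Pool.Agent.W371.SK.P.p B3' WF' Q' FELL'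
theorem INV' : S_INV := Pool.Agent.W828.SK.inv B13' B15' P'

end Pool.Agent.W662.SK
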