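import Mathlib

set_option autoImplicit false

open scoped InnerProductSpace ENNReal

namespace Pool.Agent.W662.SK

noncomputable section

/-- square-summable families `I → E` -/
abbrev L2 (I E : Type) [NormedAddCommGroup E] := lp (fun _ : I => E) 2

section basic
variable {I E F : Type} [NormedAddCommGroup E] [InnerProductSpace ℂ E]
  [NormedAddCommGroup F] [InnerProductSpace ℂ F]

/-- a unitary seen as a bounded operator -/
def cl (u : E ≃ₗᵢ[ℂ] E) : E →L[ℂ] E := u.toContinuousLinearEquiv.toContinuousLinearMap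

@[simp] lemma cl_apply (u : E ≃ₗᵢ[ℂ] E) (x : E) : cl u x = u x := rfl

lemma lft_mem (T : E →L[ℂ] F) (f : L2 I E) : Memℓp (fun i => T (f i)) 2 := by
  have h := (lp.memℓp f).norm.const_mul ‖T‖
  refine Memℓp.mono h fun i => ?_
  exact T.le_opNorm (f i)

/-- the operator `1 ⊗ T` : apply `T` to each coordinate -/
def lft (I : Type) (T : E →L[ℂ] F) : L2 I E →L[ℂ] L2 I F :=
  LinearMap.mkContinuous
    { toFun := fun f => ⟨fun i => T (f i), lft_mem T f⟩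
      map_add' := fun f g => by ext i; exact T.map_add (f i) (g i)
      map_smul' := fun c f => by ext i; exact T.map_smul c (f i) }
    ‖T‖ (fun f => by
      have h : ‖(⟨fun i => T (f i), lft_mem T f⟩ : L2 I F)‖ ≤ ‖(‖T‖ : ℂ) • f‖ := by
        refine lp.norm_mono two_ne_zero fun i => ?_
        rw [lp.coeFn_smul, Pi.smul_apply, norm_smul]
        simpa using T.le_opNorm (f i)
      rw [norm_smul] at h
      simpa using h)

@[simp] lemma lft_apply (T : E →L[ℂ] F) (f : L2 I E) (i : I) : lft I T f i = T (f i) := rfl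

lemma iso_mem (e : I ≃ I) (U : I → (E ≃ₗᵢ[ℂ] F)) (f : L2 I E) :
    Memℓp (fun i => U i (f (e.symm i))) 2 := by
  have h := (lp.memℓp f).summable (by norm_num)
  refine memℓp_gen ?_
  simp only [LinearIsometryEquiv.norm_map]
  exact (e.symm.summable_iff (f := fun i => ‖f i‖ ^ (2 : ℝ≥0∞).toReal)).2 h

/-- the unitary `f ↦ (i ↦ U i (f (e⁻¹ i)))` -/
def isoL (e : I ≃ I) (U : I → (E ≃ₗᵢ[ℂ] F)) : L2 I E ≃ₗᵢ[ℂ] L2 I F where
  toFun f := ⟨fun i => U i (f (e.symm i)), iso_mem e U f⟩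
  map_add' f g := by ext i; exact (U i).map_add _ _
  map_smul' c f := by ext i; exact (U i).map_smul c _
  invFun g := ⟨fun i => (U (e i)).symm (g (e i)), by
    have := iso_mem e.symm (fun i => (U (e i)).symm) g
    exact this⟩
  left_inv f := by ext i; simp
  right_inv f := by ext i; simp
  norm_map' f := by
    have h1 := lp.norm_rpow_eq_tsum (p := 2) (by norm_num)
      (⟨fun i => U i (f (e.symm i)), iso_mem e U f⟩ : L2 I F)
    have h2 := lp.norm_rpow_eq_tsum (p := 2) (by norm_num) f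
    have h3 : ∑' i, ‖U i (f (e.symm i))‖ ^ (2 : ℝ≥0∞).toReal = ∑' i, ‖f i‖ ^ (2 : ℝ≥0∞).toReal := by
      simp only [LinearIsometryEquiv.norm_map]
      exact e.symm.tsum_eq (fun i => ‖f i‖ ^ (2 : ℝ≥0∞).toReal)
    have h4 : ‖(⟨fun i => U i (f (e.symm i)), iso_mem e U f⟩ : L2 I F)‖ ^ (2 : ℝ≥0∞).toReal
        = ‖f‖ ^ (2 : ℝ≥0∞).toReal := by
      rw [h1, h2]; exact h3
    have h5 : (2 : ℝ≥0∞).toReal = 2 := by norm_num
    rw [h5, Real.rpow_two, Real.rpow_two] at h4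
    exact (sq_eq_sq₀ (norm_nonneg _) (norm_nonneg _)).1 h4

@[simp] lemma isoL_apply (e : I ≃ I) (U : I → (E ≃ₗᵢ[ℂ] F)) (f : L2 I E) (i : I) :
    isoL e U f i = U i (f (e.symm i)) := rfl

@[simp] lemma isoL_symm_apply (e : I ≃ I) (U : I → (E ≃ₗᵢ[ℂ] F)) (g : L2 I F) (i : I) :
    (isoL e U).symm g i = (U (e i)).symm (g (e i)) := rfl

end basic

section alg
variable {Γ : Type} [Group Γ] {K : Type} [NormedAddCommGroup K] [InnerProductSpace ℂ K]

/-- left translation on `ℓ²(Γ;K)` -/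
def Lam (K : Type) [NormedAddCommGroup K] [InnerProductSpace ℂ K] (g : Γ) :
    L2 Γ K ≃ₗᵢ[ℂ] L2 Γ K :=
  isoL (Equiv.mulLeft g) (fun _ => LinearIsometryEquiv.refl ℂ K)

/-- right translation on `ℓ²(Γ;K)` -/
def Rho (K : Type) [NormedAddCommGroup K] [InnerProductSpace ℂ K] (g : Γ) :
    L2 Γ K ≃ₗᵢ[ℂ] L2 Γ K :=
  isoL (Equiv.mulRight g⁻¹) (fun _ => LinearIsometryEquiv.refl ℂ K)

/-- the diagonal unitary `⊕_h π(h)` -/
def Wop (π : Γ →* (K ≃ₗᵢ[ℂ] K)) : L2 Γ K ≃ₗᵢ[ℂ] L2 Γ K :=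
  isoL (Equiv.refl Γ) (fun h => π h)

@[simp] lemma Lam_apply (g : Γ) (f : L2 Γ K) (h : Γ) : Lam K g f h = f (g⁻¹ * h) := rfl
@[simp] lemma Rho_apply (g : Γ) (f : L2 Γ K) (h : Γ) : Rho K g f h = f (h * g) := by
  simp [Rho]
@[simp] lemma Wop_apply (π : Γ →* (K ≃ₗᵢ[ℂ] K)) (f : L2 Γ K) (h : Γ) :
    Wop π f h = π h (f h) := rfl
@[simp] lemma Wop_symm_apply (π : Γ →* (K ≃ₗᵢ[ℂ] K)) (f : L2 Γ K) (h : Γ) :
    (Wop π).symm f h = (π h).symm (f h) := rfl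

/-- the norm closed span of the left translations: a copy of the reduced group C*-algebra -/
def Cr (Γ K : Type) [Group Γ] [NormedAddCommGroup K] [InnerProductSpace ℂ K] :
    Submodule ℂ (L2 Γ K →L[ℂ] L2 Γ K) :=
  (Submodule.span ℂ (Set.range fun g : Γ => cl (Lam K g))).topologicalClosure

/-- `|x⟩⟨y| ⊗ λ(g)` -/
def Gop {Γ K : Type} [Group Γ] [NormedAddCommGroup K] [InnerProductSpace ℂ K] (x y : K) (g : Γ) :
    L2 Γ K →L[ℂ] L2 Γ K :=
  (lft Γ (InnerProductSpace.rankOne ℂ x y)).comp (cl (Lam K g))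

lemma Gop_apply (x y : K) (g : Γ) (f : L2 Γ K) (h : Γ) :
    Gop x y g f h = (⟪y, f (g⁻¹ * h)⟫_ℂ) • x := rfl

/-- the ideal `K(K) ⊗ C*_r(Γ)` -/
def Jd (Γ K : Type) [Group Γ] [NormedAddCommGroup K] [InnerProductSpace ℂ K] :
    Submodule ℂ (L2 Γ K →L[ℂ] L2 Γ K) :=
  (Submodule.span ℂ {T | ∃ (x y : K) (g : Γ), T = Gop x y g}).topologicalClosure

/-- `σ_π(c) = W c W*` -/
def sg (π : Γ →* (K ≃ₗᵢ[ℂ] K)) (c : L2 Γ K →L[ℂ] L2 Γ K) : L2 Γ K →L[ℂ] L2 Γ K :=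
  (cl (Wop π)).comp (c.comp (cl (Wop π).symm))

/-- the underlying set of the algebra `A_π` -/
def Aset (π : Γ →* (K ≃ₗᵢ[ℂ] K)) : Set (L2 Γ K →L[ℂ] L2 Γ K) :=
  {T | ∃ j ∈ Jd Γ K, ∃ c ∈ Cr Γ K, T = j + sg π c}

/-- weak containment of `π` in multiples of the left regular representation -/
def WC {Γ K : Type} [Group Γ] [NormedAddCommGroup K] [InnerProductSpace ℂ K]
    (π : Γ →* (K ≃ₗᵢ[ℂ] K)) : Prop :=
  ∀ (n : ℕ) (ζ : Fin n → K) (F : Finset Γ) (ε : ℝ), 0 < ε →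
    ∃ (E : Type) (_ : NormedAddCommGroup E) (_ : InnerProductSpace ℂ E) (_ : CompleteSpace E)
      (η : Fin n → L2 Γ E), ∀ g ∈ F, ∀ i j : Fin n,
      ‖⟪ζ j, π g (ζ i)⟫_ℂ - ⟪η j, Lam E g (η i)⟫_ℂ‖ < ε

/-- the standing data: a family of isometries commuting with two representations and tending
weakly to zero -/
structure Shift (π π' : Γ →* (K ≃ₗᵢ[ℂ] K)) where
  s : ℕ → (K →ₗᵢ[ℂ] K)
  comm : ∀ n g x, π g (s n x) = s n (π g x)
  comm' : ∀ n g x, π' g (s n x) = s n (π' g x)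
  weak : ∀ x y : K, Filter.Tendsto (fun n => ⟪y, s n x⟫_ℂ) Filter.atTop (nhds 0)

end alg

end
end Pool.Agent.W662.SK
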