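import Pool.Agent.W662.SK.Defs

set_option autoImplicit false

open scoped InnerProductSpace ENNReal

namespace Pool.Agent.W662.SK

noncomputable section

/-- the free group of rank three -/
abbrev G3 := FreeGroup (Fin 3)

/-- `ℓ²(G3)` -/
abbrev K0 := L2 G3 ℂ

/-- delta function at `x` -/
def dl (x : G3) : K0 := lp.single 2 x (1 : ℂ)

/-- the cosine `√(1 - t²)` -/
def cs (t : ℝ) : ℝ := Real.sqrt (1 - t ^ 2)

/-- the rotation in the plane spanned by `δ_s` and `δ_1` :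
`δ_s ↦ c δ_s + t δ_1`, `δ_1 ↦ c δ_1 - t δ_s` -/
def rotFun (c t : ℝ) (s : G3) (f : G3 → ℂ) (x : G3) : ℂ :=
  if x = 1 then (c : ℂ) * f 1 + (t : ℂ) * f s
  else if x = s then (c : ℂ) * f s - (t : ℂ) * f 1
  else f x

/-- data of a rotation as a unitary of `ℓ²(G3)` -/
def IsRot (t : ℝ) (s : G3) (R : K0 ≃ₗᵢ[ℂ] K0) : Prop :=
  ∀ (f : K0) (x : G3), R f x = rotFun (cs t) t s (fun y => f y) x

open Classical in
/-- the rotation as a unitary -/
def Rot (t : ℝ) (s : G3) : K0 ≃ₗᵢ[ℂ] K0 :=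
  if h : ∃ R : K0 ≃ₗᵢ[ℂ] K0, IsRot t s R then h.choose else LinearIsometryEquiv.refl ℂ K0

/-- the representation `π_t` of the free group -/
def rp (t : ℝ) : G3 →* (K0 ≃ₗᵢ[ℂ] K0) :=
  FreeGroup.lift fun i => Rot t (FreeGroup.of i) * Lam ℂ (FreeGroup.of i)

/-- the chain vector `π_t(L) δ_1` -/
def vv (t : ℝ) (L : List (Fin 3 × Bool)) : K0 := rp t (FreeGroup.mk L) (dl 1)

end
end Pool.Agent.W662.SK
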