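import Pool.Agent.W662.SK.Basic

set_option autoImplicit false

open scoped InnerProductSpace ENNReal
open Filter Topology

namespace Pool.Agent.W662.SK

noncomputable section

section defs
variable {Γ : Type} [Group Γ] {K : Type} [NormedAddCommGroup K] [InnerProductSpace ℂ K]

lemma Lam_mem (g : Γ) : cl (Lam K g) ∈ Cr Γ K :=
  Submodule.le_topologicalClosure _ (Submodule.subset_span ⟨g, rfl⟩)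

lemma Gop_mem (x y : K) (g : Γ) : Gop x y g ∈ Jd Γ K :=
  Submodule.le_topologicalClosure _ (Submodule.subset_span ⟨x, y, g, rfl⟩)

/-- the algebra with underlying set `A_π` -/
def IsA [CompleteSpace K] (π : Γ →* (K ≃ₗᵢ[ℂ] K))
    (A : NonUnitalStarSubalgebra ℂ (L2 Γ K →L[ℂ] L2 Γ K)) : Prop :=
  (A : Set (L2 Γ K →L[ℂ] L2 Γ K)) = Aset π

/-- isometries commuting with `π` and tending weakly to zero -/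
def HasShift (π : Γ →* (K ≃ₗᵢ[ℂ] K)) : Prop :=
  ∃ s : ℕ → (K →ₗᵢ[ℂ] K), (∀ n g x, π g (s n x) = s n (π g x)) ∧
    ∀ x y : K, Tendsto (fun n => ⟪y, s n x⟫_ℂ) atTop (𝓝 0)

/-- the images of the ideal and of the group algebra under an isomorphism, abstractly -/
structure PhiData [CompleteSpace K] (π : Γ →* (K ≃ₗᵢ[ℂ] K))
    (Φ : K → K → Γ → (L2 Γ K →L[ℂ] L2 Γ K))
    (Ψ : Cr Γ K →ₗ[ℂ] (L2 Γ K →L[ℂ] L2 Γ K)) : Prop where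
  hadd : ∀ x x' y g, Φ (x + x') y g = Φ x y g + Φ x' y g
  hsmul : ∀ (a : ℂ) x y g, Φ (a • x) y g = a • Φ x y g
  hmul : ∀ x y g x' y' g', Φ x y g * Φ x' y' g' = ⟪y, x'⟫_ℂ • Φ x y' (g * g')
  hadj : ∀ x y g, star (Φ x y g) = Φ y x g⁻¹
  hR : ∀ x y g h, Φ x y g * cl (Rho K h) = cl (Rho K h) * Φ x y g
  hnorm : ∀ c, ‖Ψ c‖ ≤ ‖c‖
  hΨR : ∀ c h, Ψ c * cl (Rho K h) = cl (Rho K h) * Ψ c
  hΨΦ : ∀ h x y g, Ψ ⟨cl (Lam K h), Lam_mem h⟩ * Φ x y g = Φ (π h x) y (h * g)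
  dense : ∀ (ζ : L2 Γ K) (δ : ℝ), 0 < δ → ∃ (m : ℕ) (x y : Fin m → K) (g : Fin m → Γ)
    (z : Fin m → L2 Γ K), ‖ζ - ∑ r, Φ (x r) (y r) (g r) (z r)‖ < δ

/-- finitely supported form of weak containment -/
def WCfin (π : Γ →* (K ≃ₗᵢ[ℂ] K)) : Prop :=
  ∀ (n : ℕ) (ζ : Fin n → K) (F : Finset Γ) (ε : ℝ), 0 < ε →
    ∃ (B : Type) (S : Finset Γ) (y : Fin n → Γ → L2 B ℂ),
      (∀ i k, k ∉ S → y i k = 0) ∧ ∀ g ∈ F, ∀ i j : Fin n,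
      ‖⟪ζ j, π g (ζ i)⟫_ℂ - ∑ k ∈ S, ⟪y j (g * k), y i k⟫_ℂ‖ < ε

end defs

section tens
variable {B X : Type} [NormedAddCommGroup X] [InnerProductSpace ℂ X]

/-- `x ↦ y ⊗ x` -/
def tens (y : L2 B ℂ) : X →L[ℂ] L2 B X :=
  LinearMap.mkContinuous
    { toFun := fun x => lft B (ContinuousLinearMap.toSpanSingleton ℂ x) y
      map_add' := fun x x' => by
        refine l2_ext fun b => ?_
        change y b • (x + x') = y b • x + y b • x'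
        rw [smul_add]
      map_smul' := fun c x => by
        refine l2_ext fun b => ?_
        change y b • (c • x) = c • (y b • x)
        rw [smul_comm] }
    ‖y‖ (fun x => by
      have h := (lft B (ContinuousLinearMap.toSpanSingleton ℂ x)).le_opNorm y
      refine h.trans ?_
      rw [mul_comm]
      refine mul_le_mul_of_nonneg_left ?_ (norm_nonneg _)
      exact (norm_lft_le _).trans (by rw [ContinuousLinearMap.norm_toSpanSingleton]))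

@[simp] lemma tens_apply (y : L2 B ℂ) (x : X) (b : B) : tens y x b = y b • x := rfl

/-- `z ↦ v ⊗ z` for `z ∈ ℓ²(Γ;K)` seen in `ℓ²(Γ; ℓ²(ι;X))` by means of a basis of `K` -/
def jm {ι K : Type} (Γ : Type) [NormedAddCommGroup K] [InnerProductSpace ℂ K]
    (b : HilbertBasis ι ℂ K) (v : X) : L2 Γ K →L[ℂ] L2 Γ (L2 ι X) :=
  lft Γ ((lft ι (ContinuousLinearMap.toSpanSingleton ℂ v)).comp
    (b.repr.toContinuousLinearEquiv.toContinuousLinearMap : K →L[ℂ] L2 ι ℂ))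

lemma jm_apply {ι K : Type} (Γ : Type) [NormedAddCommGroup K] [InnerProductSpace ℂ K]
    (b : HilbertBasis ι ℂ K) (v : X) (z : L2 Γ K) (h : Γ) (i : ι) :
    jm Γ b v z h i = (b.repr (z h) i) • v := rfl

end tens

def S_B1 : Prop := ∀ (Γ K : Type) [Group Γ] [NormedAddCommGroup K] [InnerProductSpace ℂ K]
  [CompleteSpace K],
  (∀ a ∈ Jd Γ K, ∀ b ∈ Jd Γ K, a * b ∈ Jd Γ K) ∧ (∀ a ∈ Jd Γ K, star a ∈ Jd Γ K) ∧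
  (∀ a ∈ Cr Γ K, ∀ b ∈ Cr Γ K, a * b ∈ Cr Γ K) ∧ (∀ a ∈ Cr Γ K, star a ∈ Cr Γ K) ∧
  (1 : L2 Γ K →L[ℂ] L2 Γ K) ∈ Cr Γ K

/-- elementary properties of `sg` -/
def S_B0 : Prop := ∀ (Γ K : Type) [Group Γ] [NormedAddCommGroup K] [InnerProductSpace ℂ K]
  [CompleteSpace K] (π : Γ →* (K ≃ₗᵢ[ℂ] K)),
  (∀ a b, sg π (a * b) = sg π a * sg π b) ∧ (∀ a, sg π (star a) = star (sg π a)) ∧
  (∀ a b, sg π (a + b) = sg π a + sg π b) ∧ (∀ (c : ℂ) a, sg π (c • a) = c • sg π a) ∧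
  sg π 1 = 1 ∧ (∀ a, ‖sg π a‖ = ‖a‖)

def S_B2 : Prop := ∀ (Γ K : Type) [Group Γ] [NormedAddCommGroup K] [InnerProductSpace ℂ K]
  [CompleteSpace K] (π : Γ →* (K ≃ₗᵢ[ℂ] K)), ∀ c ∈ Cr Γ K, ∀ j ∈ Jd Γ K,
  sg π c * j ∈ Jd Γ K ∧ j * sg π c ∈ Jd Γ K

def S_B3 : Prop := ∀ (Γ K : Type) [Group Γ] [NormedAddCommGroup K] [InnerProductSpace ℂ K]
  [CompleteSpace K] (s : ℕ → (K →ₗᵢ[ℂ] K)),
  (∀ x y : K, Tendsto (fun n => ⟪y, s n x⟫_ℂ) atTop (𝓝 0)) →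
  ∀ j ∈ Jd Γ K, ∀ ζ : L2 Γ K,
    Tendsto (fun n => ‖j (lft Γ (s n).toContinuousLinearMap ζ)‖) atTop (𝓝 0)

def S_B4 : Prop := ∀ (Γ K : Type) [Group Γ] [NormedAddCommGroup K] [InnerProductSpace ℂ K]
  [CompleteSpace K] (π : Γ →* (K ≃ₗᵢ[ℂ] K)), HasShift π →
  ∀ j ∈ Jd Γ K, ∀ c ∈ Cr Γ K, ‖c‖ ≤ ‖j + sg π c‖

def S_B5 : Prop := ∀ (Γ K : Type) [Group Γ] [NormedAddCommGroup K] [InnerProductSpace ℂ K]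
  [CompleteSpace K] (π : Γ →* (K ≃ₗᵢ[ℂ] K)), HasShift π → IsClosed (Aset π)

def S_B6 : Prop := ∀ (Γ K : Type) [Group Γ] [NormedAddCommGroup K] [InnerProductSpace ℂ K]
  [CompleteSpace K] (π : Γ →* (K ≃ₗᵢ[ℂ] K)),
  ∃ A : NonUnitalStarSubalgebra ℂ (L2 Γ K →L[ℂ] L2 Γ K), IsA π A

def S_B7 : Prop := ∀ (Γ K : Type) [Group Γ] [NormedAddCommGroup K] [InnerProductSpace ℂ K]
  [CompleteSpace K] [Countable Γ] [TopologicalSpace.SeparableSpace K]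
  (π : Γ →* (K ≃ₗᵢ[ℂ] K)), TopologicalSpace.IsSeparable (Aset π)

def S_B8 : Prop := ∀ (Γ K : Type) [Group Γ] [NormedAddCommGroup K] [InnerProductSpace ℂ K]
  [CompleteSpace K] (π π' : Γ →* (K ≃ₗᵢ[ℂ] K)) (ε : ℝ), 0 ≤ ε →
  (∀ g, ‖cl (π g) - cl (π' g)‖ ≤ ε) →
  ∀ c : L2 Γ K →L[ℂ] L2 Γ K, ‖sg π c - sg π' c‖ ≤ 2 * ε * ‖c‖

def S_B9 : Prop := ∀ (Γ K : Type) [Group Γ] [NormedAddCommGroup K] [InnerProductSpace ℂ K]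
  [CompleteSpace K] (π π' : Γ →* (K ≃ₗᵢ[ℂ] K)) (ε : ℝ), 0 ≤ ε →
  (∀ g, ‖cl (π g) - cl (π' g)‖ ≤ ε) → HasShift π → HasShift π' →
  Metric.hausdorffDist {x : L2 Γ K →L[ℂ] L2 Γ K | x ∈ Aset π ∧ ‖x‖ ≤ 1}
    {x : L2 Γ K →L[ℂ] L2 Γ K | x ∈ Aset π' ∧ ‖x‖ ≤ 1} ≤ 4 * ε

def S_B10 : Prop := ∀ (Γ K : Type) [Group Γ] [NormedAddCommGroup K] [InnerProductSpace ℂ K]
  [CompleteSpace K] [Nontrivial K] (π : Γ →* (K ≃ₗᵢ[ℂ] K)), HasShift π →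
  ∀ A : NonUnitalStarSubalgebra ℂ (L2 Γ K →L[ℂ] L2 Γ K), IsA π A →
  ∃ τ : A →ₗ[ℂ] ℂ, (∀ x, ‖τ x‖ ≤ ‖x‖) ∧ (∀ x y, τ (x * y) = τ (y * x)) ∧
    ∀ x : A, τ (star x * x) = 0 → (x : L2 Γ K →L[ℂ] L2 Γ K) ∈ Jd Γ K

def S_B11 : Prop := ∀ (Γ K : Type) [Group Γ] [NormedAddCommGroup K] [InnerProductSpace ℂ K]
  [CompleteSpace K] (π : Γ →* (K ≃ₗᵢ[ℂ] K)) (f : ℕ → K), Orthonormal ℂ f →
  ∀ A : NonUnitalStarSubalgebra ℂ (L2 Γ K →L[ℂ] L2 Γ K), IsA π A →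
  ∀ τ : A →ₗ[ℂ] ℂ, (∀ x, ‖τ x‖ ≤ ‖x‖) → (∀ x y, τ (x * y) = τ (y * x)) →
  ∀ x : A, (x : L2 Γ K →L[ℂ] L2 Γ K) ∈ Jd Γ K → τ x = 0

def S_B12a : Prop := ∀ (H : Type) [NormedAddCommGroup H] [InnerProductSpace ℂ H] [CompleteSpace H]
  (A B : NonUnitalStarSubalgebra ℂ (H →L[ℂ] H)), IsClosed (A : Set (H →L[ℂ] H)) →
  IsClosed (B : Set (H →L[ℂ] H)) → ∀ (θ : A ≃⋆ₐ[ℂ] B) (x : A), ‖θ x‖ = ‖x‖

def S_B12 : Prop := ∀ (Γ K : Type) [Group Γ] [NormedAddCommGroup K] [InnerProductSpace ℂ K]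
  [CompleteSpace K] (π π' : Γ →* (K ≃ₗᵢ[ℂ] K)) (f : ℕ → K), Orthonormal ℂ f →
  HasShift π → HasShift π' →
  ∀ A B : NonUnitalStarSubalgebra ℂ (L2 Γ K →L[ℂ] L2 Γ K), IsA π A → IsA π' B →
  ∀ (θ : A ≃⋆ₐ[ℂ] B) (x : A), (x : L2 Γ K →L[ℂ] L2 Γ K) ∈ Jd Γ K →
    ((θ x : B) : L2 Γ K →L[ℂ] L2 Γ K) ∈ Jd Γ K

def S_B13 : Prop := ∀ (Γ K : Type) [Group Γ] [NormedAddCommGroup K] [InnerProductSpace ℂ K]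
  [CompleteSpace K] (π π' : Γ →* (K ≃ₗᵢ[ℂ] K)), HasShift π →
  ∀ A B : NonUnitalStarSubalgebra ℂ (L2 Γ K →L[ℂ] L2 Γ K), IsA π A → IsA π' B →
  ∀ θ : A ≃⋆ₐ[ℂ] B, ∃ ω : Γ →* (L2 Γ K ≃ₗᵢ[ℂ] L2 Γ K), ∀ g, cl (ω g) ∈ Cr Γ K ∧
    ∃ x : A, ((θ x : B) : L2 Γ K →L[ℂ] L2 Γ K) = sg π' (cl (Lam K g)) ∧
      (x : L2 Γ K →L[ℂ] L2 Γ K) - sg π (cl (ω g)) ∈ Jd Γ K

def S_B14 : Prop := ∀ (Γ K : Type) [Group Γ] [NormedAddCommGroup K] [InnerProductSpace ℂ K]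
  [CompleteSpace K] (ζ : L2 Γ K) (δ : ℝ), 0 < δ → ∃ (m : ℕ) (x y : Fin m → K) (g : Fin m → Γ)
    (z : Fin m → L2 Γ K), ‖ζ - ∑ r, Gop (x r) (y r) (g r) (z r)‖ < δ

def S_B15 : Prop := ∀ (Γ K : Type) [Group Γ] [NormedAddCommGroup K] [InnerProductSpace ℂ K]
  [CompleteSpace K] (π π' : Γ →* (K ≃ₗᵢ[ℂ] K)) (f : ℕ → K), Orthonormal ℂ f →
  HasShift π → HasShift π' →
  ∀ A B : NonUnitalStarSubalgebra ℂ (L2 Γ K →L[ℂ] L2 Γ K), IsA π A → IsA π' B →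
  ∀ θ : A ≃⋆ₐ[ℂ] B, ∃ (Φ : K → K → Γ → (L2 Γ K →L[ℂ] L2 Γ K))
    (Ψ : Cr Γ K →ₗ[ℂ] (L2 Γ K →L[ℂ] L2 Γ K)), PhiData π Φ Ψ ∧
    ∀ (x : A) (c : Cr Γ K), (x : L2 Γ K →L[ℂ] L2 Γ K) - sg π (c : L2 Γ K →L[ℂ] L2 Γ K) ∈ Jd Γ K →
      ((θ x : B) : L2 Γ K →L[ℂ] L2 Γ K) - Ψ c ∈ Jd Γ K

def S_WF : Prop := ∀ (Γ K : Type) [Group Γ] [NormedAddCommGroup K] [InnerProductSpace ℂ K]
  [CompleteSpace K] (π : Γ →* (K ≃ₗᵢ[ℂ] K)), WC π → WCfin π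

def S_Qa : Prop := ∀ (Γ K : Type) [Group Γ] [NormedAddCommGroup K] [InnerProductSpace ℂ K]
  [CompleteSpace K] (π : Γ →* (K ≃ₗᵢ[ℂ] K)) (Φ : K → K → Γ → (L2 Γ K →L[ℂ] L2 Γ K))
  (Ψ : Cr Γ K →ₗ[ℂ] (L2 Γ K →L[ℂ] L2 Γ K)), PhiData π Φ Ψ → ∀ x0 : K, ‖x0‖ = 1 →
  ∀ (n : ℕ) (ζ : Fin n → L2 Γ K) (δ : ℝ), 0 < δ →
    ∃ (m : ℕ) (x : Fin m → K) (z : Fin n → Fin m → L2 Γ K),
      (∀ i r, Φ x0 x0 1 (z i r) = z i r) ∧ ∀ i, ‖ζ i - ∑ r, Φ (x r) x0 1 (z i r)‖ < δ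

def S_Qb : Prop := ∀ (Γ K : Type) [Group Γ] [NormedAddCommGroup K] [InnerProductSpace ℂ K]
  [CompleteSpace K] (π : Γ →* (K ≃ₗᵢ[ℂ] K)) (Φ : K → K → Γ → (L2 Γ K →L[ℂ] L2 Γ K))
  (Ψ : Cr Γ K →ₗ[ℂ] (L2 Γ K →L[ℂ] L2 Γ K)), PhiData π Φ Ψ → ∀ x0 : K,
  ∀ (n m : ℕ) (x : Fin m → K) (z : Fin n → Fin m → L2 Γ K) (g h : Γ) (i j : Fin n),
    ⟪∑ s, Φ (x s) x0 1 (z j s), Ψ ⟨cl (Lam K h), Lam_mem h⟩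
      (Rho K g (∑ r, Φ (x r) x0 1 (z i r)))⟫_ℂ =
    ∑ r, ∑ s, ⟪x s, π h (x r)⟫_ℂ * ⟪z j s, Φ x0 x0 h (Rho K g (z i r))⟫_ℂ

/-- the vectors `𝒴_i` -/
def Yv {Γ K B ι : Type} [Group Γ] [DecidableEq Γ] [NormedAddCommGroup K] [InnerProductSpace ℂ K]
    (b : HilbertBasis ι ℂ K) (x0 : K) (u : Γ → (L2 Γ K →L[ℂ] L2 Γ K)) (S : Finset Γ) {m : ℕ}
    (y : Fin m → Γ → L2 B ℂ) (z : Fin m → L2 Γ K) : L2 Γ (L2 B (L2 ι (L2 Γ K))) :=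
  ∑ k ∈ S, ∑ r, lft Γ (tens (y r k)) (jm Γ b (lp.single 2 k x0 : L2 Γ K) (u k⁻¹ (z r)))

open Classical in
def S_Qc : Prop := ∀ (Γ K B ι : Type) [Group Γ] [NormedAddCommGroup K] [InnerProductSpace ℂ K]
  [CompleteSpace K] (b : HilbertBasis ι ℂ K) (x0 : K), ‖x0‖ = 1 →
  ∀ u : Γ → (L2 Γ K →L[ℂ] L2 Γ K), (∀ h k, u h * u k = u (h * k)) → (∀ h, star (u h) = u h⁻¹) →
  (∀ h k, u h * cl (Rho K k) = cl (Rho K k) * u h) →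
  ∀ (S : Finset Γ) (n m : ℕ) (y : Fin m → Γ → L2 B ℂ), (∀ r k, k ∉ S → y r k = 0) →
  ∀ (z : Fin n → Fin m → L2 Γ K), (∀ i r, u 1 (z i r) = z i r) →
  ∀ (g h : Γ) (i j : Fin n),
    ⟪Yv b x0 u S y (z j), lft Γ (lft B (lft ι (cl (Lam K h))))
      (Rho (L2 B (L2 ι (L2 Γ K))) g (Yv b x0 u S y (z i)))⟫_ℂ =
    ∑ r, ∑ s, (∑ k ∈ S, ⟪y s (h * k), y r k⟫_ℂ) * ⟪z j s, u h (Rho K g (z i r))⟫_ℂ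

def S_Q : Prop := ∀ (Γ K : Type) [Group Γ] [NormedAddCommGroup K] [InnerProductSpace ℂ K]
  [CompleteSpace K] [Nontrivial K] (π : Γ →* (K ≃ₗᵢ[ℂ] K))
  (Φ : K → K → Γ → (L2 Γ K →L[ℂ] L2 Γ K))
  (Ψ : Cr Γ K →ₗ[ℂ] (L2 Γ K →L[ℂ] L2 Γ K)), PhiData π Φ Ψ → WCfin π →
  ∀ (ω0 : Γ →* (L2 Γ K ≃ₗᵢ[ℂ] L2 Γ K)) (hω : ∀ g, cl (ω0 g) ∈ Cr Γ K),
  ∀ (n : ℕ) (ζ : Fin n → L2 Γ K) (F : Finset Γ) (ε : ℝ), 0 < ε →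
    ∃ (E : Type) (_ : NormedAddCommGroup E) (_ : InnerProductSpace ℂ E) (_ : CompleteSpace E)
      (ω : Γ →* (E ≃ₗᵢ[ℂ] E)) (Y : Fin n → L2 Γ E), ∀ g ∈ F, ∀ i j : Fin n,
      ‖⟪ζ j, Ψ ⟨cl (ω0 g), hω g⟩ (Rho K g (ζ i))⟫_ℂ -
        ⟪Y j, lft Γ (cl (ω g)) (Rho E g (Y i))⟫_ℂ‖ < ε

def S_FELL : Prop := ∀ (Γ E : Type) [Group Γ] [NormedAddCommGroup E] [InnerProductSpace ℂ E]
  (ω : Γ →* (E ≃ₗᵢ[ℂ] E)) (n : ℕ) (Y : Fin n → L2 Γ E), ∃ η : Fin n → L2 Γ E,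
  ∀ (g : Γ) (i j : Fin n), ⟪η j, Lam E g (η i)⟫_ℂ = ⟪Y j, lft Γ (cl (ω g)) (Rho E g (Y i))⟫_ℂ

def S_P : Prop := ∀ (Γ K : Type) [Group Γ] [NormedAddCommGroup K] [InnerProductSpace ℂ K]
  [CompleteSpace K] [Nontrivial K] (π π' : Γ →* (K ≃ₗᵢ[ℂ] K))
  (Φ : K → K → Γ → (L2 Γ K →L[ℂ] L2 Γ K))
  (Ψ : Cr Γ K →ₗ[ℂ] (L2 Γ K →L[ℂ] L2 Γ K)), PhiData π Φ Ψ → WC π → HasShift π' →
  ∀ (ω0 : Γ →* (L2 Γ K ≃ₗᵢ[ℂ] L2 Γ K)) (hω : ∀ g, cl (ω0 g) ∈ Cr Γ K),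
  (∀ g, sg π' (cl (Lam K g)) - Ψ ⟨cl (ω0 g), hω g⟩ ∈ Jd Γ K) → WC π'

/-- isomorphic algebras: weak containment is transferred -/
def S_INV : Prop := ∀ (Γ K : Type) [Group Γ] [NormedAddCommGroup K] [InnerProductSpace ℂ K]
  [CompleteSpace K] (π π' : Γ →* (K ≃ₗᵢ[ℂ] K)) (f : ℕ → K), Orthonormal ℂ f →
  HasShift π → HasShift π' →
  ∀ A B : NonUnitalStarSubalgebra ℂ (L2 Γ K →L[ℂ] L2 Γ K), IsA π A → IsA π' B →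
  Nonempty (A ≃⋆ₐ[ℂ] B) → WC π → WC π'

end
end Pool.Agent.W662.SK
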