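import Pool.Agent.W662.SK.StmtsA
import Pool.Agent.W662.SK.StmtsB

set_option autoImplicit false
set_option linter.unusedSectionVars false

open scoped InnerProductSpace ENNReal
open Filter Topology

namespace Pool.Agent.W662.SK

noncomputable section

lemma sepL2 {I E : Type} [Countable I] [NormedAddCommGroup E] [InnerProductSpace ℂ E]
    [TopologicalSpace.SeparableSpace E] : TopologicalSpace.SeparableSpace (L2 I E) := by
  classical
  have h1 : TopologicalSpace.IsSeparable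
      (⋃ i : I, Set.range fun x : E => (lp.single 2 i x : L2 I E)) := by
    refine TopologicalSpace.IsSeparable.iUnion fun i => ?_
    exact TopologicalSpace.isSeparable_range
      (lp.isometry_single (E := fun _ : I => E) (p := 2) i).continuous
  have h2 := (h1.span (R := ℂ)).closure
  rw [← TopologicalSpace.isSeparable_univ_iff]
  refine h2.mono fun f _ => ?_
  have h3 := hasSum_single' f
  refine mem_closure_of_tendsto h3 (Filter.Eventually.of_forall fun s => ?_)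
  refine Submodule.sum_mem _ fun i _ => Submodule.subset_span ?_
  exact Set.mem_iUnion.2 ⟨i, ⟨f i, rfl⟩⟩

lemma shift_left {Γ K : Type} [Group Γ] [NormedAddCommGroup K] [InnerProductSpace ℂ K]
    {π π' : Γ →* (K ≃ₗᵢ[ℂ] K)} (σ : Shift π π') : HasShift π := ⟨σ.s, σ.comm, σ.weak⟩

lemma shift_right {Γ K : Type} [Group Γ] [NormedAddCommGroup K] [InnerProductSpace ℂ K]
    {π π' : Γ →* (K ≃ₗᵢ[ℂ] K)} (σ : Shift π π') : HasShift π' := ⟨σ.s, σ.comm', σ.weak⟩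

lemma orthoL2 : Orthonormal ℂ (fun n : ℕ => (lp.single 2 (n : ℤ) (dl 1) : L2 ℤ K0)) := by
  rw [orthonormal_iff_ite]
  intro i j
  rw [inner_single_left']
  by_cases h : i = j
  · subst h
    rw [lp.single_apply_self, if_pos rfl, inner_dl, dl_apply_self]
  · rw [if_neg h, lp.single_apply_ne _ _ _ (by exact_mod_cast h), inner_zero_right]

theorem main (hPA : S_PA) (hL1 : S_L1) (hL2 : S_L2) (hL3 : S_L3) (hL4 : S_L4) (h5 : S_B5)
    (h6 : S_B6) (h7 : S_B7) (h9 : S_B9) (hinv : S_INV) :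
    ¬ (∃ ε : ℝ, 0 < ε ∧
      ∀ (H : Type) [NormedAddCommGroup H] [InnerProductSpace ℂ H] [CompleteSpace H]
        (A B : NonUnitalStarSubalgebra ℂ (H →L[ℂ] H)),
        IsClosed (A : Set (H →L[ℂ] H)) →
        IsClosed (B : Set (H →L[ℂ] H)) →
        TopologicalSpace.SeparableSpace A →
        (∃ e ∈ A, ∀ a ∈ A, e * a = a ∧ a * e = a) →
        Metric.hausdorffDist {x : H →L[ℂ] H | x ∈ A ∧ ‖x‖ ≤ 1}
            {x : H →L[ℂ] H | x ∈ B ∧ ‖x‖ ≤ 1} < ε →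
        Nonempty (A ≃⋆ₐ[ℂ] B)) := by
  rintro ⟨ε, hε, H⟩
  obtain ⟨π, π', hcl, hw, hnw⟩ := hPA (ε / 5) (by positivity)
  obtain ⟨σ⟩ := hL1 G3 K0 π π'
  have s1 := shift_left σ
  have s2 := shift_right σ
  haveI : Countable G3 := by
    have : Function.Injective (FreeGroup.toWord : G3 → _) := FreeGroup.toWord_injective
    exact this.countable
  haveI : TopologicalSpace.SeparableSpace K0 := sepL2
  haveI : TopologicalSpace.SeparableSpace (L2 ℤ K0) := sepL2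
  obtain ⟨A, hA⟩ := h6 G3 (L2 ℤ K0) (lf π)
  obtain ⟨B, hB⟩ := h6 G3 (L2 ℤ K0) (lf π')
  have hAc : IsClosed (A : Set (L2 G3 (L2 ℤ K0) →L[ℂ] L2 G3 (L2 ℤ K0))) := by
    rw [hA]; exact h5 _ _ _ s1
  have hBc : IsClosed (B : Set (L2 G3 (L2 ℤ K0) →L[ℂ] L2 G3 (L2 ℤ K0))) := by
    rw [hB]; exact h5 _ _ _ s2
  have hsep : TopologicalSpace.SeparableSpace A := by
    have h := h7 G3 (L2 ℤ K0) (lf π)
    rw [← hA] at h
    exact h.separableSpace
  have h1 : (1 : L2 G3 (L2 ℤ K0) →L[ℂ] L2 G3 (L2 ℤ K0)) ∈ A := by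
    rw [← SetLike.mem_coe, hA]
    refine ⟨0, Submodule.zero_mem _, cl (Lam (L2 ℤ K0) (1 : G3)), Lam_mem 1, ?_⟩
    rw [zero_add, Lam_one]
    refine ContinuousLinearMap.ext fun f => ?_
    exact ((Wop (lf π)).apply_symm_apply f).symm
  have hd := h9 G3 (L2 ℤ K0) (lf π) (lf π') (ε / 5) (by positivity)
    (fun g => (hL4 G3 K0 π π' g).trans (hcl g)) s1 s2
  have hiso := H (L2 G3 (L2 ℤ K0)) A B hAc hBc hsep ⟨1, h1, fun a _ => ⟨one_mul a, mul_one a⟩⟩ (by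
    have e1 : {x : L2 G3 (L2 ℤ K0) →L[ℂ] L2 G3 (L2 ℤ K0) | x ∈ A ∧ ‖x‖ ≤ 1} =
        {x | x ∈ Aset (lf π) ∧ ‖x‖ ≤ 1} := by
      ext x; rw [Set.mem_ofPred_eq, Set.mem_ofPred_eq, ← SetLike.mem_coe, hA]
    have e2 : {x : L2 G3 (L2 ℤ K0) →L[ℂ] L2 G3 (L2 ℤ K0) | x ∈ B ∧ ‖x‖ ≤ 1} =
        {x | x ∈ Aset (lf π') ∧ ‖x‖ ≤ 1} := by
      ext x; rw [Set.mem_ofPred_eq, Set.mem_ofPred_eq, ← SetLike.mem_coe, hB]
    rw [e1, e2]
    linarith)
  exact hnw (hL3 _ _ _ (hinv G3 (L2 ℤ K0) (lf π) (lf π') _ orthoL2 s1 s2 A B hA hB hiso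
    (hL2 _ _ _ hw)))

end
end Pool.Agent.W662.SK
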